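import Pool.Agent.Helper86.TH.Stmts

/-! Row II of the table tht_mods: the interpolation functions. -/

set_option linter.unusedSectionVars false

namespace TH61

open MvPolynomial Finset TH

noncomputable section

variable {K : Type*} [Field K] [CharZero K]

theorem dn_le {ν : Par} {i : ℕ} (h : i ∈ rms ν) : dn ν i ≤ ν := by
  have hR := mem_rms.1 h
  have h1 := le_up (dn ν i) i (adb_dn hR)
  rwa [up_dn hR] at h1

theorem vanish {q t : K} (hG : Gn q t) (hINT : ST_INT K) {μ : Par} {I : Sy K}
    (hI : Dk q t 0 I + Mj q t 0 • pd I = (1 - Mj q t 0 * Ps q t μ 0) • I)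
    (P : Par → Prop) (hP : ∀ ν, P ν → ∀ i ∈ rms ν, P (dn ν i))
    (h0 : ∀ ν, P ν → ν ≠ μ ∨ ev (pt q t ν) I = 0) :
    ∀ ν, P ν → ev (pt q t ν) I = 0 := by
  have key : ∀ n : ℕ, ∀ ν : Par, card ν = n → P ν → ev (pt q t ν) I = 0 := by
    intro n
    induction n using Nat.strong_induction_on with
    | _ n ih =>
      intro ν hn hPν
      rcases h0 ν hPν with h | h
      · have h1 := hINT q t hG ν (card ν) le_rfl I
        have h2 : ∑ i ∈ rms ν, rho q t (card ν) ν i * ev (pt q t (dn ν i)) I = 0 := by
          refine Finset.sum_eq_zero fun i hi => ?_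
          have h3 := card_dn (mem_rms.1 hi)
          rw [ih (card (dn ν i)) (by omega) (dn ν i) rfl (hP ν hPν i hi), mul_zero]
        rw [h2, add_zero] at h1
        have h4 := congrArg (ev (pt q t ν)) hI
        rw [map_add, map_smul, map_smul, smul_eq_mul, smul_eq_mul] at h4
        rw [h4] at h1
        have h5 : Mj q t 0 * (Ps q t ν 0 - Ps q t μ 0) * ev (pt q t ν) I = 0 := by
          linear_combination h1
        rcases mul_eq_zero.1 h5 with h6 | h6
        · exfalso
          rcases mul_eq_zero.1 h6 with h7 | h7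
          · exact hG.Mj_ne 0 h7
          · exact h (hG.inj ν μ (sub_eq_zero.1 h7))
        · exact h6
      · exact h
  intro ν hν
  exact key (card ν) ν rfl hν

variable (K) in
theorem st_II (hTI : ST_TI K) (hINT : ST_INT K) (hDN1 : ST_DN1 K) (hDN2 : ST_DN2 K) : ST_II K := by
  intro q t hG b hb
  choose I hI1 hI2 using hTI q t hG b hb
  refine ⟨I, hI1, hI2, ?_, ?_⟩
  · intro μ ν h
    by_contra hle
    apply h
    refine vanish hG hINT (hI1 μ) (fun ν => ¬ μ ≤ ν) ?_ ?_ ν hle
    · intro κ hκ i hi h1
      exact hκ (le_trans h1 (dn_le hi))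
    · intro κ hκ
      left
      rintro rfl
      exact hκ le_rfl
  · intro μ h
    have h1 : ∀ ν, ev (pt q t ν) (I μ) = 0 := by
      intro ν
      refine vanish hG hINT (hI1 μ) (fun _ => True) (fun _ _ _ _ => trivial) ?_ ν trivial
      intro κ _
      by_cases hκ : κ = μ
      · right; rw [hκ]; exact h
      · left; exact hκ
    have h2 : I μ = 0 := hDN2 q t hG (I μ) (hDN1 q t hG (I μ) h1)
    have h3 := hI2 μ μ
    rw [h2, zero_sub, map_neg, Finsupp.neg_apply, Module.Basis.repr_self,
      Finsupp.single_eq_same] at h3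
    exact lt_irrefl _ (h3 (by simp))

end

end TH61
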