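import Pool.Agent.Helper86.TH.Stmts

/-! Row PD of the table tht_mods: the derivative with respect to `p_1` and the vertex operators. -/

set_option linter.unusedSectionVars false

namespace TH61

open MvPolynomial Finset TH

noncomputable section

variable {K : Type*} [Field K] [CharZero K]

theorem pd_apply (F : Sy K) : pd F = pderiv (R := K) 0 F := rfl

theorem pd_mul (F G : Sy K) : pd (F * G) = pd F * G + F * pd G := by
  simp only [pd_apply, Derivation.leibniz, smul_eq_mul]
  ring

theorem pd_X (j : ℕ) : pd (X j : Sy K) = if j = 0 then 1 else 0 := by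
  rw [pd_apply]
  by_cases h : j = 0
  · subst h; simp
  · rw [pderiv_X_of_ne h, if_neg h]

theorem pd_C (a : K) : pd (C a : Sy K) = 0 := by
  rw [pd_apply, pderiv_C]

theorem eh_rec (n : ℕ) : ((n : Sy K) + 1) * eh K (n + 1)
    = ∑ i ∈ range (n + 1), -(X i : Sy K) * eh K (n - i) := by
  simpa only [eh] using hc_rec_mul (fun j => -(X j : Sy K)) n

theorem pd_natCast_add_one (n : ℕ) : pd ((n : Sy K) + 1) = 0 := by
  have h : ((n : Sy K) + 1) = C ((n : K) + 1) := by simp
  rw [h, pd_C]

theorem cast_ne (n : ℕ) : ((n : Sy K) + 1) ≠ 0 := by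
  have h : ((n : Sy K) + 1) = ((n + 1 : ℕ) : Sy K) := by push_cast; rfl
  rw [h]
  exact Nat.cast_ne_zero.mpr (Nat.succ_ne_zero n)

theorem pd_eh (n : ℕ) : pd (eh K n) = if n = 0 then 0 else -eh K (n - 1) := by
  induction n using Nat.strong_induction_on with
  | _ n ih =>
    cases n with
    | zero =>
      rw [eh_zero, if_pos rfl]
      have h : (1 : Sy K) = C 1 := by simp
      rw [h, pd_C]
    | succ n =>
      rw [if_neg (Nat.succ_ne_zero n), Nat.add_sub_cancel]
      have h1 := congrArg (pd (K := K)) (eh_rec (K := K) n)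
      rw [pd_mul, pd_natCast_add_one, zero_mul, zero_add, map_sum] at h1
      have h2 : ∀ i ∈ range (n + 1), pd (-(X i : Sy K) * eh K (n - i))
          = (if i = 0 then -eh K n else 0) + -(X i : Sy K) * pd (eh K (n - i)) := by
        intro i _
        rw [pd_mul, map_neg, pd_X]
        by_cases h : i = 0
        · subst h; simp
        · simp [h]
      rw [Finset.sum_congr rfl h2, Finset.sum_add_distrib, Finset.sum_ite_eq'] at h1
      rw [if_pos (by simp), Finset.sum_range_succ, Nat.sub_self] at h1
      have h3 : pd (eh K 0) = 0 := by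
        rw [ih 0 (by omega), if_pos rfl]
      rw [h3, mul_zero, add_zero] at h1
      have h4 : ∑ i ∈ range n, -(X i : Sy K) * pd (eh K (n - i)) = -((n : Sy K) * eh K n) := by
        cases n with
        | zero => simp
        | succ m =>
          have h5 := eh_rec (K := K) m
          have h6 : ((m + 1 : ℕ) : Sy K) = (m : Sy K) + 1 := by push_cast; rfl
          rw [h6, h5, ← Finset.sum_neg_distrib]
          refine Finset.sum_congr rfl fun i hi => ?_
          rw [mem_range] at hi
          rw [ih (m + 1 - i) (by omega), if_neg (by omega)]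
          have h7 : m + 1 - i - 1 = m - i := by omega
          rw [h7]
          ring
      rw [h4] at h1
      refine mul_left_cancel₀ (cast_ne (K := K) n) ?_
      rw [h1]
      ring

theorem pd_ehz (n : ℤ) : pd (ehz K n) = -ehz K (n - 1) := by
  rcases lt_or_ge n 0 with h | h
  · rw [ehz_neg n h, ehz_neg (n - 1) (by omega)]
    simp
  · obtain ⟨m, rfl⟩ := Int.eq_ofNat_of_zero_le h
    rw [ehz_natCast, pd_eh]
    cases m with
    | zero => rw [if_pos rfl, ehz_neg _ (by simp)]; simp
    | succ m =>
      rw [if_neg (Nat.succ_ne_zero m), Nat.add_sub_cancel]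
      have h1 : ((m + 1 : ℕ) : ℤ) - 1 = (m : ℤ) := by push_cast; ring
      rw [h1, ehz_natCast]

theorem tau_mul_X (q t : K) (i j : ℕ) (F : Sy K) :
    tau q t i (F * X j) = tau q t i F * X j
      + (if j + 1 ≤ i then C (Mj q t j) * tau q t (i - (j + 1)) F else 0) := by
  rw [tau_apply, map_mul, tauA_X, mul_add, Polynomial.coeff_add, Polynomial.coeff_mul_C]
  congr 1
  rw [← mul_assoc, Polynomial.coeff_mul_X_pow']
  split_ifs with h
  · rw [Polynomial.coeff_mul_C, tau_apply, mul_comm]
  · rfl

theorem pd_tau (q t : K) (F : Sy K) : ∀ i : ℕ, pd (tau q t i F) = tau q t i (pd F) := by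
  induction F using MvPolynomial.induction_on with
  | C a =>
    intro i
    rw [pd_C, map_zero, tau_apply]
    have h1 : tauA q t (C a) = Polynomial.C (C a) := by
      have h := (tauA q t).commutes a
      rw [MvPolynomial.algebraMap_eq] at h
      rw [h]
      rfl
    rw [h1, Polynomial.coeff_C]
    split_ifs
    · exact pd_C a
    · exact map_zero _
  | add F G hF hG =>
    intro i
    rw [map_add, map_add, map_add, map_add, hF, hG]
  | mul_X F j hF =>
    intro i
    rw [tau_mul_X, map_add, pd_mul, pd_mul, map_add, tau_mul_X, hF i, pd_X]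
    have h1 : tau q t i (F * if j = 0 then 1 else 0) = tau q t i F * if j = 0 then 1 else 0 := by
      split_ifs
      · rw [mul_one, mul_one]
      · rw [mul_zero, mul_zero, map_zero]
    rw [h1]
    have h2 : pd (if j + 1 ≤ i then C (Mj q t j) * tau q t (i - (j + 1)) F else 0)
        = if j + 1 ≤ i then C (Mj q t j) * tau q t (i - (j + 1)) (pd F) else 0 := by
      split_ifs
      · rw [pd_mul, pd_C, zero_mul, zero_add, hF]
      · exact map_zero _
    rw [h2]
    ring

theorem st_PD : ST_PD K := by
  intro q t k
  refine LinearMap.ext fun F => ?_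
  rw [Module.End.mul_apply, LinearMap.sub_apply, Module.End.mul_apply]
  set N := (tauA q t F).natDegree + (tauA q t (pd F)).natDegree + 1 with hN
  rw [Dk_apply q t k F N (by omega), Dk_apply q t k (pd F) N (by omega),
    Dk_apply q t (k - 1) F N (by omega), map_sum, ← Finset.sum_sub_distrib]
  refine Finset.sum_congr rfl fun i _ => ?_
  rw [pd_mul, pd_ehz, pd_tau]
  have h1 : k - 1 + (i : ℤ) = k + (i : ℤ) - 1 := by ring
  rw [h1]
  ring

end

end TH61
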